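import Mathlib

set_option autoImplicit false

/-!
# MP_a0dd0b_co: the dodecahedron graph can be drawn on nine lines

It is conjectured that the affine line cover number `ρ₃¹` of the dodecahedron graph is `10` (and
that the one of the icosahedron graph is `15`). We give a crossing-free straight-line drawing of the
dodecahedron graph, even in the plane, whose thirty edges lie on nine lines. So the conjecture is
false.

The drawing: the vertices `.inl i`, `.inr i` of `GP(10, 2)` have the coordinates in the tables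
`xs` and `ys`. It was found by a SAT solver (as a pseudoline arrangement with a drawing) and
then realised by straight lines numerically.
-/

namespace Pool.Agent.Results.MP_a0dd0b_co.NineLines

/-- The space `ℝ^d`. -/
abbrev E (d : ℕ) : Type := EuclideanSpace ℝ (Fin d)

/-- `p` is a crossing-free straight-line drawing of `G` in `ℝ^d`: different vertices are mapped to
different points, two different edges (closed segments) meet only in common endpoints, and no vertex
lies in the relative interior of an edge. -/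
structure IsDrawing {V : Type} (d : ℕ) (G : SimpleGraph V) (p : V → E d) : Prop where
  injective : Function.Injective p
  edges : ∀ a b c e, G.Adj a b → G.Adj c e → s(a, b) ≠ s(c, e) →
    ∀ x ∈ segment ℝ (p a) (p b), x ∈ segment ℝ (p c) (p e) →
      ∃ v, (v = a ∨ v = b) ∧ (v = c ∨ v = e) ∧ x = p v
  vertices : ∀ a b, G.Adj a b → ∀ v, p v ∉ openSegment ℝ (p a) (p b)

/-- `L` is a line of `ℝ^d`. -/
def IsLine {d : ℕ} (L : Set (E d)) : Prop :=
  ∃ a b : E d, a ≠ b ∧ L = {x | ∃ t : ℝ, x = a + t • (b - a)}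

/-- There are `k` lines in `ℝ^d` and a crossing-free straight-line drawing of `G` such that the union
of the lines contains all edges of the drawing. -/
def DrawableOn {V : Type} (d : ℕ) (G : SimpleGraph V) (k : ℕ) : Prop :=
  ∃ (p : V → E d) (L : Fin k → Set (E d)), IsDrawing d G p ∧ (∀ i, IsLine (L i)) ∧
    ∀ a b, G.Adj a b → segment ℝ (p a) (p b) ⊆ ⋃ i, L i

/-- The affine line cover number `ρ_d¹(G)`: the least `k` such that `G` has a drawing on `k` lines
in `ℝ^d`. -/
noncomputable def lineCover {V : Type} (d : ℕ) (G : SimpleGraph V) : ℕ :=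
  sInf {k | DrawableOn d G k}

/-- The dodecahedron graph as the generalised Petersen graph `GP(10, 2)`: an outer cycle
`u₀ u₁ ... u₉` (`uᵢ = inl i`), spokes `uᵢ vᵢ` (`vᵢ = inr i`), and edges `vᵢ vᵢ₊₂` (indices modulo
`10`). -/
def dodecahedron : SimpleGraph (Fin 10 ⊕ Fin 10) :=
  SimpleGraph.fromRel fun a b => match a, b with
    | .inl i, .inl j => j = i + 1
    | .inl i, .inr j => j = i
    | .inr i, .inr j => j = i + 2
    | .inr _, .inl _ => False

abbrev V := Fin 10 ⊕ Fin 10

/-- The thirty edges. -/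
def edge (i : Fin 10) (k : Fin 3) : V × V :=
  match k with
  | 0 => (.inl i, .inl (i + 1))
  | 1 => (.inl i, .inr i)
  | 2 => (.inr i, .inr (i + 2))

theorem adj_edge {a b : V} (h : dodecahedron.Adj a b) :
    ∃ i k, edge i k = (a, b) ∨ edge i k = (b, a) := by
  rw [dodecahedron, SimpleGraph.fromRel_adj] at h
  obtain ⟨_, h⟩ := h
  rcases a with a | a <;> rcases b with b | b <;> rcases h with h | h <;> simp only at h
  · exact ⟨a, 0, Or.inl (by rw [h]; rfl)⟩
  · exact ⟨b, 0, Or.inr (by rw [h]; rfl)⟩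
  · exact ⟨a, 1, Or.inl (by rw [h]; rfl)⟩
  · exact ⟨b, 1, Or.inr (by rw [h]; rfl)⟩
  · exact ⟨a, 2, Or.inl (by rw [h]; rfl)⟩
  · exact ⟨b, 2, Or.inr (by rw [h]; rfl)⟩

/-- Abscissae. -/
def xs : V → ℤ
  | .inl i => ![510050898, 0, 790940997, 879153198, 863114616, 935093313, 973028133, 990331056, 803746944, 791188398] i
  | .inr i => ![574712523, 1733079348, 669549573, 1256184468, 854493948, 1019150748, 859223673, 995457848, 854300898, 1021801473] i

/-- Ordinates. -/
def ys : V → ℤ
  | .inl i => ![255025449, 0, 263646999, 263646999, 287704872, 311697771, 324342711, 330110352, 376756380, 395594199] i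
  | .inr i => ![263646999, 144423279, 263646999, 263646999, 300635874, 322905429, 301581819, 328828654, 300925449, 334097379] i

/-- The line which contains a given edge. -/
def lineOf (i : Fin 10) (k : Fin 3) : Fin 9 :=
  ![![8, 5, 3],
    ![7, 4, 2],
    ![3, 3, 6],
    ![0, 3, 2],
    ![7, 0, 6],
    ![7, 5, 2],
    ![7, 6, 5],
    ![2, 2, 6],
    ![0, 0, 5],
    ![8, 1, 1]] i k

/-- Two vertices on each of the nine lines. -/
def base : Fin 9 → V × V :=
  ![(.inl 3, .inl 4), (.inl 9, .inr 9), (.inr 1, .inr 3), (.inr 0, .inr 2), (.inl 1, .inr 1), (.inl 0, .inr 0), (.inr 2, .inr 4), (.inl 1, .inl 2), (.inl 0, .inl 1)]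

/-- The orientation of three vertices. -/
def ori (a b c : V) : ℤ := (xs b - xs a) * (ys c - ys a) - (ys b - ys a) * (xs c - xs a)

/-- Two edges with the common vertex `s` have no other common point. -/
def Fork (s a b : V) : Prop := ori s a b ≠ 0 ∨ (xs a - xs s) * (xs b - xs s) < 0

instance (s a b : V) : Decidable (Fork s a b) := by unfold Fork; infer_instance

/-- Two edges without common vertex have no common point. -/
def Apart (a b c e : V) : Prop :=
  0 < ori a b c * ori a b e ∨ 0 < ori c e a * ori c e b ∨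
    (xs a < xs c ∧ xs a < xs e ∧ xs b < xs c ∧ xs b < xs e) ∨
    (xs c < xs a ∧ xs c < xs b ∧ xs e < xs a ∧ xs e < xs b)

instance (a b c e : V) : Decidable (Apart a b c e) := by unfold Apart; infer_instance

/-- Everything which is needed about two edges. -/
def Okay (a b c e : V) : Prop :=
  (a ≠ c ∧ a ≠ e ∧ b ≠ c ∧ b ≠ e ∧ Apart a b c e) ∨ (a = c ∧ Fork a b e) ∨ (a = e ∧ Fork a b c) ∨
    (b = c ∧ Fork b a e) ∨ (b = e ∧ Fork b a c)

instance (a b c e : V) : Decidable (Okay a b c e) := by unfold Okay; infer_instance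

theorem all_okay : ∀ i k j l, (i, k) ≠ (j, l) →
    Okay (edge i k).1 (edge i k).2 (edge j l).1 (edge j l).2 := by
  decide +kernel

theorem inj_table : ∀ a b : V, a ≠ b → xs a ≠ xs b ∨ ys a ≠ ys b := by
  decide +kernel

theorem on_line : ∀ i k, ori (base (lineOf i k)).1 (base (lineOf i k)).2 (edge i k).1 = 0 ∧
    ori (base (lineOf i k)).1 (base (lineOf i k)).2 (edge i k).2 = 0 := by
  decide +kernel

theorem base_ne : ∀ l, xs (base l).1 ≠ xs (base l).2 := by
  decide +kernel

/-- The drawing. -/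
noncomputable def pos (d : ℕ) (v : V) : E d :=
  WithLp.toLp 2 fun i => if i.val = 0 then (xs v : ℝ) else if i.val = 1 then (ys v : ℝ) else 0

section

variable {d : ℕ}

theorem pos_zero (hd : 2 ≤ d) (v : V) : pos d v ⟨0, by omega⟩ = xs v := by simp [pos]

theorem pos_one (hd : 2 ≤ d) (v : V) : pos d v ⟨1, by omega⟩ = ys v := by simp [pos]

theorem pos_injective (hd : 2 ≤ d) : Function.Injective (pos d) := by
  intro a b h
  by_contra hne
  have h0 : pos d a ⟨0, by omega⟩ = pos d b ⟨0, by omega⟩ := by rw [h]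
  have h1 : pos d a ⟨1, by omega⟩ = pos d b ⟨1, by omega⟩ := by rw [h]
  rw [pos_zero hd, pos_zero hd, Int.cast_inj] at h0
  rw [pos_one hd, pos_one hd, Int.cast_inj] at h1
  rcases inj_table a b hne with h2 | h2
  · exact h2 h0
  · exact h2 h1

theorem param {x u v : E d} (h : x ∈ segment ℝ u v) :
    ∃ t : ℝ, 0 ≤ t ∧ t ≤ 1 ∧ ∀ i, x i = u i + t * (v i - u i) := by
  rw [segment_eq_image'] at h
  obtain ⟨t, ht, rfl⟩ := h
  exact ⟨t, ht.1, ht.2, fun i => by simp⟩

theorem combo_lt {p q m t : ℝ} (h1 : p < m) (h2 : q < m) (ht : 0 ≤ t) (ht' : t ≤ 1) :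
    p + t * (q - p) < m := by
  rcases le_total p q with h | h
  · have := mul_le_mul_of_nonneg_right ht' (sub_nonneg.2 h)
    linarith
  · have := mul_nonneg ht (sub_nonneg.2 h)
    linarith

theorem lt_combo {p q m t : ℝ} (h1 : m < p) (h2 : m < q) (ht : 0 ≤ t) (ht' : t ≤ 1) :
    m < p + t * (q - p) := by
  rcases le_total p q with h | h
  · have := mul_nonneg ht (sub_nonneg.2 h)
    linarith
  · have := mul_le_mul_of_nonneg_right ht' (sub_nonneg.2 h)
    linarith

/-- Two forking edges meet only in the common vertex. -/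
theorem fork (hd : 2 ≤ d) {s a b : V} (h : Fork s a b) {x : E d} {t u : ℝ} (ht : 0 ≤ t) (hu : 0 ≤ u)
    (h1 : ∀ i, x i = pos d s i + t * (pos d a i - pos d s i))
    (h2 : ∀ i, x i = pos d s i + u * (pos d b i - pos d s i)) : x = pos d s := by
  have e0 := (h1 ⟨0, by omega⟩).symm.trans (h2 ⟨0, by omega⟩)
  have e1 := (h1 ⟨1, by omega⟩).symm.trans (h2 ⟨1, by omega⟩)
  simp only [pos_zero hd] at e0
  simp only [pos_one hd] at e1
  have ht0 : t = 0 := by
    rcases h with h | h
    · have h' : ((xs a : ℝ) - xs s) * (ys b - ys s) - (ys a - ys s) * (xs b - xs s) ≠ 0 := by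
        have : (ori s a b : ℝ) ≠ 0 := by exact_mod_cast h
        simpa [ori] using this
      have h3 : t * (((xs a : ℝ) - xs s) * (ys b - ys s) - (ys a - ys s) * (xs b - xs s)) = 0 := by
        linear_combination (ys b - ys s : ℝ) * e0 - (xs b - xs s : ℝ) * e1
      exact (mul_eq_zero.mp h3).resolve_right h'
    · have h' : ((xs a : ℝ) - xs s) * (xs b - xs s) < 0 := by exact_mod_cast h
      have hne : ((xs a : ℝ) - xs s) ≠ 0 := by
        intro h0; rw [h0, zero_mul] at h'; exact lt_irrefl _ h'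
      have h3 : t * ((xs a : ℝ) - xs s) ^ 2 = u * (((xs a : ℝ) - xs s) * (xs b - xs s)) := by
        linear_combination ((xs a : ℝ) - xs s) * e0
      have h4 : u * (((xs a : ℝ) - xs s) * (xs b - xs s)) ≤ 0 :=
        mul_nonpos_of_nonneg_of_nonpos hu h'.le
      have h5 : 0 < ((xs a : ℝ) - xs s) ^ 2 := by positivity
      by_contra h6
      have h7 : 0 < t := lt_of_le_of_ne ht (Ne.symm h6)
      have := mul_pos h7 h5
      linarith
  ext i
  rw [h1 i, ht0]
  ring

/-- Edges which are apart have no common point. -/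
theorem apart (hd : 2 ≤ d) {a b c e : V} (h : Apart a b c e) {x : E d} {t u : ℝ} (ht : 0 ≤ t) (ht' : t ≤ 1)
    (hu : 0 ≤ u) (hu' : u ≤ 1)
    (h1 : ∀ i, x i = pos d a i + t * (pos d b i - pos d a i))
    (h2 : ∀ i, x i = pos d c i + u * (pos d e i - pos d c i)) : False := by
  have e0 := (h1 ⟨0, by omega⟩).symm.trans (h2 ⟨0, by omega⟩)
  have e1 := (h1 ⟨1, by omega⟩).symm.trans (h2 ⟨1, by omega⟩)
  simp only [pos_zero hd] at e0
  simp only [pos_one hd] at e1
  have key : ∀ m n w : ℝ, 0 < m * n → 0 ≤ w → w ≤ 1 → m + w * (n - m) ≠ 0 := by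
    intro m n w hmn hw hw' h0
    rcases pos_and_pos_or_neg_and_neg_of_mul_pos hmn with ⟨hm, hn⟩ | ⟨hm, hn⟩
    · nlinarith [mul_nonneg hw hn.le, mul_nonneg (sub_nonneg.2 hw') hm.le]
    · nlinarith [mul_nonneg hw (neg_pos.2 hn).le, mul_nonneg (sub_nonneg.2 hw') (neg_pos.2 hm).le]
  rcases h with h | h | h | h
  · have h' : (0 : ℝ) < (ori a b c : ℝ) * (ori a b e : ℝ) := by exact_mod_cast h
    refine key _ _ u h' hu hu' ?_
    simp only [ori]
    push_cast
    linear_combination (-((xs b : ℝ) - xs a)) * e1 + ((ys b : ℝ) - ys a) * e0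
  · have h' : (0 : ℝ) < (ori c e a : ℝ) * (ori c e b : ℝ) := by exact_mod_cast h
    refine key _ _ t h' ht ht' ?_
    simp only [ori]
    push_cast
    linear_combination ((xs e : ℝ) - xs c) * e1 - ((ys e : ℝ) - ys c) * e0
  · obtain ⟨g1, g2, g3, g4⟩ := h
    have g1' : (xs a : ℝ) < xs c := by exact_mod_cast g1
    have g2' : (xs a : ℝ) < xs e := by exact_mod_cast g2
    have g3' : (xs b : ℝ) < xs c := by exact_mod_cast g3
    have g4' : (xs b : ℝ) < xs e := by exact_mod_cast g4
    have h5 := lt_combo (combo_lt g1' g3' ht ht') (combo_lt g2' g4' ht ht') hu hu'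
    rw [e0] at h5
    exact lt_irrefl _ h5
  · obtain ⟨g1, g2, g3, g4⟩ := h
    have g1' : (xs c : ℝ) < xs a := by exact_mod_cast g1
    have g2' : (xs c : ℝ) < xs b := by exact_mod_cast g2
    have g3' : (xs e : ℝ) < xs a := by exact_mod_cast g3
    have g4' : (xs e : ℝ) < xs b := by exact_mod_cast g4
    have h5 := lt_combo (combo_lt g1' g3' hu hu') (combo_lt g2' g4' hu hu') ht ht'
    rw [e0] at h5
    exact lt_irrefl _ h5

theorem okay (hd : 2 ≤ d) {a b c e : V} (h : Okay a b c e) {x : E d}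
    (hx : x ∈ segment ℝ (pos d a) (pos d b)) (hx' : x ∈ segment ℝ (pos d c) (pos d e)) :
    ∃ v, (v = a ∨ v = b) ∧ (v = c ∨ v = e) ∧ x = pos d v := by
  rcases h with ⟨_, _, _, _, h⟩ | ⟨rfl, h⟩ | ⟨rfl, h⟩ | ⟨rfl, h⟩ | ⟨rfl, h⟩
  · obtain ⟨t, ht, ht', h1⟩ := param hx
    obtain ⟨u, hu, hu', h2⟩ := param hx'
    exact (apart hd h ht ht' hu hu' h1 h2).elim
  · obtain ⟨t, ht, -, h1⟩ := param hx
    obtain ⟨u, hu, -, h2⟩ := param hx'
    exact ⟨a, Or.inl rfl, Or.inl rfl, fork hd h ht hu h1 h2⟩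
  · rw [segment_symm] at hx'
    obtain ⟨t, ht, -, h1⟩ := param hx
    obtain ⟨u, hu, -, h2⟩ := param hx'
    exact ⟨a, Or.inl rfl, Or.inr rfl, fork hd h ht hu h1 h2⟩
  · rw [segment_symm] at hx
    obtain ⟨t, ht, -, h1⟩ := param hx
    obtain ⟨u, hu, -, h2⟩ := param hx'
    exact ⟨b, Or.inr rfl, Or.inl rfl, fork hd h ht hu h1 h2⟩
  · rw [segment_symm] at hx hx'
    obtain ⟨t, ht, -, h1⟩ := param hx
    obtain ⟨u, hu, -, h2⟩ := param hx'
    exact ⟨b, Or.inr rfl, Or.inr rfl, fork hd h ht hu h1 h2⟩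

theorem edges_pos (hd : 2 ≤ d) {a b c e : V} (h1 : dodecahedron.Adj a b) (h2 : dodecahedron.Adj c e)
    (hne : s(a, b) ≠ s(c, e)) {x : E d} (hx : x ∈ segment ℝ (pos d a) (pos d b))
    (hx' : x ∈ segment ℝ (pos d c) (pos d e)) :
    ∃ v, (v = a ∨ v = b) ∧ (v = c ∨ v = e) ∧ x = pos d v := by
  obtain ⟨i, k, h3⟩ := adj_edge h1
  obtain ⟨j, l, h4⟩ := adj_edge h2
  have hne' : (i, k) ≠ (j, l) := by
    intro h
    obtain ⟨rfl, rfl⟩ := Prod.mk.inj h
    apply hne
    rcases h3 with h3 | h3 <;> rcases h4 with h4 | h4 <;>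
      (rw [h3] at h4; obtain ⟨rfl, rfl⟩ := Prod.mk.inj h4)
    · rfl
    · exact Sym2.eq_swap
    · exact Sym2.eq_swap
    · rfl
  have hok := all_okay i k j l hne'
  rcases h3 with h3 | h3 <;> rcases h4 with h4 | h4 <;> rw [h3, h4] at hok
  · exact okay hd hok hx hx'
  · rw [segment_symm] at hx'
    obtain ⟨v, h5, h6, h7⟩ := okay hd hok hx hx'
    exact ⟨v, h5, h6.symm, h7⟩
  · rw [segment_symm] at hx
    obtain ⟨v, h5, h6, h7⟩ := okay hd hok hx hx'
    exact ⟨v, h5.symm, h6, h7⟩
  · rw [segment_symm] at hx hx'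
    obtain ⟨v, h5, h6, h7⟩ := okay hd hok hx hx'
    exact ⟨v, h5.symm, h6.symm, h7⟩

theorem spoke (v : V) : ∃ w, dodecahedron.Adj v w := by
  rcases v with i | i
  · refine ⟨.inr i, ?_⟩
    rw [dodecahedron, SimpleGraph.fromRel_adj]
    exact ⟨by simp, Or.inl rfl⟩
  · refine ⟨.inl i, ?_⟩
    rw [dodecahedron, SimpleGraph.fromRel_adj]
    exact ⟨by simp, Or.inr rfl⟩

theorem isDrawing (hd : 2 ≤ d) : IsDrawing d dodecahedron (pos d) := by
  refine ⟨pos_injective hd, fun a b c e h1 h2 hne x hx hx' => edges_pos hd h1 h2 hne hx hx', ?_⟩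
  intro a b hab v hv
  by_cases hva : v = a
  · subst hva
    rw [left_mem_openSegment_iff] at hv
    exact hab.ne (pos_injective hd hv)
  by_cases hvb : v = b
  · subst hvb
    rw [right_mem_openSegment_iff] at hv
    exact hab.ne (pos_injective hd hv)
  obtain ⟨w, hw⟩ := spoke v
  have hne : s(a, b) ≠ s(v, w) := by
    intro h
    have : v ∈ s(a, b) := by rw [h]; exact Sym2.mem_mk_left v w
    rw [Sym2.mem_iff] at this
    exact this.elim hva hvb
  obtain ⟨y, h1, -, h3⟩ := edges_pos hd hab hw hne (openSegment_subset_segment ℝ _ _ hv)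
    (left_mem_segment ℝ _ _)
  have := pos_injective hd h3
  subst this
  exact h1.elim hva hvb

theorem mem_line {a b c : V} (hab : xs a ≠ xs b) (h : ori a b c = 0) :
    ∃ t : ℝ, pos d c = pos d a + t • (pos d b - pos d a) := by
  have h' : ((xs b : ℝ) - xs a) * (ys c - ys a) - (ys b - ys a) * (xs c - xs a) = 0 := by
    have : (ori a b c : ℝ) = 0 := by exact_mod_cast h
    simpa [ori] using this
  have hne : ((xs b : ℝ) - xs a) ≠ 0 := by
    intro h0
    exact hab (by exact_mod_cast (sub_eq_zero.1 h0).symm)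
  refine ⟨((xs c : ℝ) - xs a) / (xs b - xs a), ?_⟩
  ext i
  simp only [PiLp.add_apply, PiLp.smul_apply, PiLp.sub_apply, smul_eq_mul, pos]
  split_ifs
  · field_simp
    ring
  · field_simp
    linear_combination h'
  · simp

end

/-- The dodecahedron graph has a crossing-free straight-line drawing on nine lines in `ℝ^d` for
every `d ≥ 2`; in particular `ρ₃¹ ≤ 9`, and the conjectured value `10` is not correct. -/
theorem result : (∀ d, 2 ≤ d → DrawableOn d dodecahedron 9) ∧ lineCover 3 dodecahedron ≤ 9 ∧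
    lineCover 3 dodecahedron ≠ 10 := by
  have main : ∀ d, 2 ≤ d → DrawableOn d dodecahedron 9 := by
    intro d hd
    refine ⟨pos d, fun i => {x | ∃ t : ℝ, x = pos d (base i).1 + t • (pos d (base i).2 -
      pos d (base i).1)}, isDrawing hd, fun i => ⟨_, _, ?_, rfl⟩, ?_⟩
    · intro h
      exact base_ne i (congrArg xs (pos_injective hd h))
    · intro a b hab x hx
      obtain ⟨i, k, h1⟩ := adj_edge hab
      have hx' : x ∈ segment ℝ (pos d (edge i k).1) (pos d (edge i k).2) := by
        rcases h1 with h1 | h1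
        · rw [h1]; exact hx
        · rw [h1, segment_symm]; exact hx
      obtain ⟨s, hs⟩ := mem_line (d := d) (base_ne (lineOf i k)) (on_line i k).1
      obtain ⟨t, ht⟩ := mem_line (d := d) (base_ne (lineOf i k)) (on_line i k).2
      rw [Set.mem_iUnion]
      refine ⟨lineOf i k, ?_⟩
      obtain ⟨u, -, -, hu⟩ := param hx'
      refine ⟨s + u * (t - s), ?_⟩
      ext j
      rw [hu j, hs, ht]
      simp only [PiLp.add_apply, PiLp.smul_apply, PiLp.sub_apply, smul_eq_mul]
      ring
  have h9 : lineCover 3 dodecahedron ≤ 9 := Nat.sInf_le (main 3 (by norm_num))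
  exact ⟨main, h9, by omega⟩

end Pool.Agent.Results.MP_a0dd0b_co.NineLines
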